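import Pool.Agent.Lib.MP_0067de_h58.DK2

open MeasureTheory Set Filter Topology
open scoped ENNReal NNReal ContDiff

namespace Pool.Agent.Results.MP_0067de_an.DecreasingKernel

/-- There is a smooth, bounded, positive, even kernel of integral one, nonincreasing on `[0, ∞)`,
for which the variation of `M_φ f` is not bounded by any constant multiple of the variation
of `f`, even for nonnegative `f` in `C_c^∞`. -/
theorem result : ∃ φ : ℝ → ℝ, (∀ x, 0 < φ x) ∧ Integrable φ ∧ ∫ x, φ x = 1 ∧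
    ContDiff ℝ ∞ φ ∧ (∀ x, φ x ≤ 1) ∧ (∀ x, φ (-x) = φ x) ∧ AntitoneOn φ (Ici 0) ∧
    ∀ C : ℝ≥0, ∃ f : ℝ → ℝ, ContDiff ℝ ∞ f ∧ HasCompactSupport f ∧ (∀ x, 0 ≤ f x) ∧
      BoundedVariationOn f univ ∧
      C * eVariationOn f univ < eVariationOn (maxConv φ f) univ :=
  ⟨phi Rr, phi_pos, phi_integrable Rr_ge_one, phi_integral Rr_ge_one, phi_contDiff Rr_ge_one,
    phi_le_one Rr_ge_one, phi_even Rr_ge_one, phi_antitone Rr_ge_one, good.unbounded⟩

end Pool.Agent.Results.MP_0067de_an.DecreasingKernel
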